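import Pool.Agent.Lib.MP_225355_nt.Count2

/-!
# Asymptotic form
-/

namespace Pool.Agent.Lib.MP_225355_nt

open Filter Topology

variable {q : ℕ} [NeZero q] (B : Finset (ZMod q))

theorem NX_asym {ε : ℝ} (hε : 0 < ε) :
    ∀ᶠ X : ℕ in atTop, (NX X : ℝ) ≤ ((B.card : ℝ) / q + V * mB B / (6 * (q : ℝ) ^ 3) + ε) * X := by
  have hq : 0 < q := Nat.pos_of_ne_zero (NeZero.ne q)
  have hq' : (0 : ℝ) < q := by exact_mod_cast hq
  let g : ℝ → ℝ := fun t => B.card * (1 / (q : ℝ) + t ^ 3) +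
    (mB B / 6) * (V * (1 / (q : ℝ) + 3 ^ (1 / (3 : ℝ)) * t) ^ 3) + 2 * t * (1 + t) ^ 2
  have hg : Continuous g := by
    unfold g
    fun_prop
  have hg0 : g 0 = (B.card : ℝ) / q + V * mB B / (6 * (q : ℝ) ^ 3) := by
    simp only [g]
    field_simp
    ring
  have ht : Tendsto (fun X : ℕ => (((X : ℝ) ^ (1 / (3 : ℝ)))⁻¹)) atTop (𝓝 0) :=
    ((tendsto_rpow_atTop (by norm_num : (0 : ℝ) < 1 / 3)).comp tendsto_natCast_atTop_atTop).inv_tendsto_atTop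
  have h1 : Tendsto (fun X : ℕ => g (((X : ℝ) ^ (1 / (3 : ℝ)))⁻¹)) atTop (𝓝 (g 0)) :=
    (hg.tendsto 0).comp ht
  have h2 : ∀ᶠ X : ℕ in atTop, g (((X : ℝ) ^ (1 / (3 : ℝ)))⁻¹) < g 0 + ε :=
    h1.eventually (gt_mem_nhds (lt_add_of_pos_right _ hε))
  filter_upwards [h2, eventually_ge_atTop 1] with X hX hX1
  have hX0 : (0 : ℝ) < X := by exact_mod_cast hX1
  obtain ⟨y, hy⟩ : ∃ y : ℝ, y = (X : ℝ) ^ (1 / (3 : ℝ)) := ⟨_, rfl⟩
  have hy0 : 0 < y := by rw [hy]; positivity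
  have hy3 : y ^ 3 = X := by
    rw [hy, ← Real.rpow_natCast, ← Real.rpow_mul hX0.le]
    norm_num
  have h3 := NX_le B X
  rw [← hy] at h3 hX
  have h4 : (B.card * ((X : ℝ) / q + 1) + (mB B / 6) * (V * (y / q + 3 ^ (1 / (3 : ℝ))) ^ 3) +
      2 * (y + 1) ^ 2 : ℝ) = g y⁻¹ * X := by
    simp only [g]
    rw [← hy3]
    field_simp
  rw [h4] at h3
  refine le_trans h3 ?_
  rw [← hg0]
  exact mul_le_mul_of_nonneg_right hX.le hX0.le

end Pool.Agent.Lib.MP_225355_nt
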