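import Pool.Agent.Lib.MP_225355_nt.Vol

/-!
# Counting the sums of three cubes with a set of residue classes
-/

namespace Pool.Agent.Lib.MP_225355_nt

/-- `n` is a sum of three nonnegative cubes. -/
def S3 (n : ℕ) : Prop := ∃ a b c : ℕ, a ^ 3 + b ^ 3 + c ^ 3 = n

open Classical in
/-- the number of `1 ≤ n ≤ X` that are sums of three nonnegative cubes -/
noncomputable def NX (X : ℕ) : ℕ := ((Finset.Icc 1 X).filter S3).card

section

variable {q : ℕ} [NeZero q] (B : Finset (ZMod q))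

/-- the number of triples mod `q` whose sum of cubes is not in `B` -/
def mB : ℕ := (Finset.univ.filter fun u : Fin 3 → ZMod q => ∑ i, u i ^ 3 ∉ B).card

theorem class_count (X : ℕ) :
    ((Finset.Icc 1 X).filter fun n : ℕ => (n : ZMod q) ∈ B).card ≤ B.card * (X / q + 1) := by
  have hq : 0 < q := Nat.pos_of_ne_zero (NeZero.ne q)
  rw [← Finset.card_range (X / q + 1), ← Finset.card_product]
  refine Finset.card_le_card_of_injOn (fun n => ((n : ZMod q), n / q)) ?_ ?_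
  · intro n hn
    simp only [Finset.coe_filter, Finset.mem_Icc, Set.mem_setOf_eq] at hn
    simp only [Finset.coe_product, Set.mem_prod, Finset.mem_coe, Finset.mem_range]
    exact ⟨hn.2, Nat.lt_succ_of_le (Nat.div_le_div_right hn.1.2)⟩
  · intro n _ n' _ h
    simp only [Prod.mk.injEq] at h
    have h1 : n % q = n' % q := by
      have := congrArg ZMod.val h.1
      rwa [ZMod.val_natCast, ZMod.val_natCast] at this
    rw [← Nat.div_add_mod n q, ← Nat.div_add_mod n' q, h.2, h1]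

/-- lattice points in one residue class -/
theorem fiber_count (X : ℕ) (u : Fin 3 → ZMod q) (T : Finset (Fin 3 → ℕ))
    (hT : ∀ p ∈ T, ∑ i, p i ^ 3 ≤ X) (hu : ∀ p ∈ T, ∀ i, (p i : ZMod q) = u i) :
    (T.card : ℝ) ≤ V * ((X : ℝ) ^ (1 / (3 : ℝ)) / q + 3 ^ (1 / (3 : ℝ))) ^ 3 := by
  have hq : 0 < q := Nat.pos_of_ne_zero (NeZero.ne q)
  have hq' : (0 : ℝ) < q := by exact_mod_cast hq
  have hinj : Set.InjOn (fun p : Fin 3 → ℕ => fun i => p i / q) T := by
    intro p hp p' hp' h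
    funext i
    have h1 : p i % q = p' i % q := by
      have := congrArg ZMod.val ((hu p hp i).trans (hu p' hp' i).symm)
      rwa [ZMod.val_natCast, ZMod.val_natCast] at this
    have h2 : p i / q = p' i / q := congrFun h i
    rw [← Nat.div_add_mod (p i) q, ← Nat.div_add_mod (p' i) q, h2, h1]
  rw [← Finset.card_image_of_injOn hinj]
  have hy : (0 : ℝ) ≤ (X : ℝ) / (q : ℝ) ^ 3 := by positivity
  have h := card_le hy (T.image fun p : Fin 3 → ℕ => fun i => p i / q) (by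
    intro p' hp'
    obtain ⟨p, hp, rfl⟩ := Finset.mem_image.1 hp'
    rw [le_div_iff₀ (by positivity), Finset.sum_mul]
    have h1 : ∑ i, (((p i / q : ℕ) : ℝ)) ^ 3 * (q : ℝ) ^ 3 ≤ ∑ i, ((p i : ℝ)) ^ 3 := by
      refine Finset.sum_le_sum fun i _ => ?_
      rw [← mul_pow]
      have h2 : ((p i / q : ℕ) : ℝ) * q ≤ p i := by exact_mod_cast Nat.div_mul_le_self (p i) q
      exact pow_le_pow_left₀ (by positivity) h2 3
    refine le_trans h1 ?_
    exact_mod_cast hT p hp)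
  refine le_trans h (le_of_eq ?_)
  rw [Real.div_rpow (Nat.cast_nonneg _) (by positivity)]
  rw [show ((q : ℝ) ^ 3) ^ (1 / (3 : ℝ)) = q by
    rw [← Real.rpow_natCast (q : ℝ) 3, ← Real.rpow_mul hq'.le]
    norm_num]

end

section

variable {q : ℕ} [NeZero q] (B : Finset (ZMod q))

/-- the coordinates are at most `X ^ (1/3)` -/
theorem coord_le {X : ℕ} {p : Fin 3 → ℕ} (hp : ∑ i, p i ^ 3 ≤ X) (i : Fin 3) :
    p i ≤ ⌊(X : ℝ) ^ (1 / (3 : ℝ))⌋₊ := by
  rw [Nat.le_floor_iff (by positivity)]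
  have h1 : p i ^ 3 ≤ X := le_trans (Finset.single_le_sum (f := fun i => p i ^ 3)
    (fun j _ => Nat.zero_le _) (Finset.mem_univ i)) hp
  have h2 : ((p i : ℝ)) ^ 3 ≤ X := by exact_mod_cast h1
  have h3 : ((p i : ℝ) ^ 3) ^ (1 / (3 : ℝ)) = p i := by
    rw [← Real.rpow_natCast (p i : ℝ) 3, ← Real.rpow_mul (Nat.cast_nonneg _)]
    norm_num
  rw [← h3]
  exact Real.rpow_le_rpow (by positivity) h2 (by norm_num)

/-- the triples -/
noncomputable def bx (X : ℕ) : Finset (Fin 3 → ℕ) :=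
  Fintype.piFinset fun _ => Finset.range (⌊(X : ℝ) ^ (1 / (3 : ℝ))⌋₊ + 1)

theorem mem_bx {X : ℕ} {p : Fin 3 → ℕ} (hp : ∑ i, p i ^ 3 ≤ X) : p ∈ bx X :=
  Fintype.mem_piFinset.2 fun i => Finset.mem_range.2 (Nat.lt_succ_of_le (coord_le hp i))

/-- ordered triples -/
noncomputable def TT (X : ℕ) : Finset (Fin 3 → ℕ) :=
  (bx X).filter fun p => ∑ i, p i ^ 3 ≤ X ∧ ∑ i, (p i : ZMod q) ^ 3 ∉ B

open Classical in
/-- increasing triples -/
noncomputable def UU (X : ℕ) : Finset (Fin 3 → ℕ) :=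
  (bx X).filter fun p => StrictMono p ∧ ∑ i, p i ^ 3 ≤ X ∧ ∑ i, (p i : ZMod q) ^ 3 ∉ B

theorem card_TT (X : ℕ) :
    ((TT B X).card : ℝ) ≤ mB B * (V * ((X : ℝ) ^ (1 / (3 : ℝ)) / q + 3 ^ (1 / (3 : ℝ))) ^ 3) := by
  have h := Finset.card_eq_sum_card_fiberwise (s := TT B X)
    (t := Finset.univ.filter fun u : Fin 3 → ZMod q => ∑ i, u i ^ 3 ∉ B)
    (f := fun p => fun i => (p i : ZMod q)) (by
      intro p hp
      have hp := Finset.mem_filter.1 (Finset.mem_coe.1 hp)
      exact Finset.mem_coe.2 (Finset.mem_filter.2 ⟨Finset.mem_univ _, hp.2.2⟩))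
  rw [h]
  push_cast
  unfold mB
  rw [← nsmul_eq_mul]
  refine Finset.sum_le_card_nsmul _ _ _ fun u _ => ?_
  refine fiber_count X u _ ?_ ?_
  · intro p hp
    exact (Finset.mem_filter.1 (Finset.mem_filter.1 hp).1).2.1
  · intro p hp i
    exact congrFun (Finset.mem_filter.1 hp).2 i

theorem six_UU (X : ℕ) : 6 * (UU B X).card ≤ (TT B X).card := by
  classical
  have h6 : (Finset.univ : Finset (Equiv.Perm (Fin 3))).card = 6 := by
    rw [Finset.card_univ, Fintype.card_perm, Fintype.card_fin]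
    rfl
  rw [← h6, ← Finset.card_product]
  refine Finset.card_le_card_of_injOn (fun z => z.2 ∘ z.1) ?_ ?_
  · rintro ⟨σ, p⟩ hz
    have hp := (Finset.mem_product.1 (Finset.mem_coe.1 hz)).2
    obtain ⟨-, -, h1, h2⟩ := Finset.mem_filter.1 hp
    have e1 : ∑ i, (p ∘ σ) i ^ 3 = ∑ i, p i ^ 3 := Equiv.sum_comp σ fun i => p i ^ 3
    have e2 : ∑ i, (((p ∘ σ) i : ℕ) : ZMod q) ^ 3 = ∑ i, (p i : ZMod q) ^ 3 :=
      Equiv.sum_comp σ fun i => (p i : ZMod q) ^ 3
    refine Finset.mem_coe.2 (Finset.mem_filter.2 ⟨mem_bx (by rw [e1]; exact h1), by rw [e1]; exact h1, ?_⟩)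
    rw [e2]
    exact h2
  · rintro ⟨σ, p⟩ hz ⟨σ', p'⟩ hz' h
    have hp := (Finset.mem_filter.1 (Finset.mem_product.1 (Finset.mem_coe.1 hz)).2).2.1
    have hp' := (Finset.mem_filter.1 (Finset.mem_product.1 (Finset.mem_coe.1 hz')).2).2.1
    have h : p ∘ σ = p' ∘ σ' := h
    have hr : Set.range p = Set.range p' := by
      rw [← σ.surjective.range_comp p, ← σ'.surjective.range_comp p']
      exact congrArg Set.range h
    have hpp : p = p' := (StrictMono.range_inj hp hp').1 hr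
    subst hpp
    have hσ : σ = σ' := Equiv.ext fun i => hp.injective (congrFun h i)
    rw [hσ]

end

end Pool.Agent.Lib.MP_225355_nt
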