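import Pool.Agent.Lib.MP_225355_nt.Count

/-!
# The bound for the number of sums of three cubes with a set of residue classes
-/

namespace Pool.Agent.Lib.MP_225355_nt

section

variable {q : ℕ} [NeZero q] (B : Finset (ZMod q))

/-- triples with two equal entries -/
theorem card_eq (X : ℕ) (a b : Fin 3) (hab : a ≠ b) :
    (((bx X).filter fun p => p a = p b).card : ℝ) ≤ ((X : ℝ) ^ (1 / (3 : ℝ)) + 1) ^ 2 := by
  classical
  obtain ⟨s, hs⟩ : ∃ s : ℕ, s = ⌊(X : ℝ) ^ (1 / (3 : ℝ))⌋₊ := ⟨_, rfl⟩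
  obtain ⟨c, hc⟩ : ∃ c : Fin 3, ∀ i : Fin 3, i = a ∨ i = b ∨ i = c := by
    revert a b
    decide
  have h1 : ((bx X).filter fun p => p a = p b).card ≤ (s + 1) * (s + 1) := by
    rw [← Finset.card_range (s + 1), ← Finset.card_product]
    refine Finset.card_le_card_of_injOn (fun p => (p a, p c)) ?_ ?_
    · intro p hp
      have hp := Finset.mem_filter.1 (Finset.mem_coe.1 hp)
      have hp1 := Fintype.mem_piFinset.1 hp.1
      rw [hs]
      exact Finset.mem_coe.2 (Finset.mem_product.2 ⟨hp1 a, hp1 c⟩)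
    · intro p hp p' hp' h
      have hp := (Finset.mem_filter.1 (Finset.mem_coe.1 hp)).2
      have hp' := (Finset.mem_filter.1 (Finset.mem_coe.1 hp')).2
      simp only [Prod.mk.injEq] at h
      funext i
      rcases hc i with h2 | h2 | h2
      · rw [h2]; exact h.1
      · rw [h2, ← hp, ← hp']; exact h.1
      · rw [h2]; exact h.2
  have h2 : (((bx X).filter fun p => p a = p b).card : ℝ) ≤ ((s : ℝ) + 1) * ((s : ℝ) + 1) := by
    exact_mod_cast h1
  have h3 : (s : ℝ) ≤ (X : ℝ) ^ (1 / (3 : ℝ)) := by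
    rw [hs]
    exact Nat.floor_le (by positivity)
  have h0 : (0 : ℝ) ≤ s := Nat.cast_nonneg s
  refine le_trans h2 ?_
  rw [sq]
  exact mul_le_mul (by linarith) (by linarith) (by linarith) (by positivity)

theorem mono_cases {p : Fin 3 → ℕ} (hp : Monotone p) : StrictMono p ∨ p 0 = p 1 ∨ p 1 = p 2 := by
  by_cases h1 : p 0 = p 1
  · exact Or.inr (Or.inl h1)
  · by_cases h2 : p 1 = p 2
    · exact Or.inr (Or.inr h2)
    · left
      have h3 : p 0 < p 1 := lt_of_le_of_ne (hp (by decide)) h1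
      have h4 : p 1 < p 2 := lt_of_le_of_ne (hp (by decide)) h2
      rw [Fin.strictMono_iff_lt_succ]
      intro i
      fin_cases i
      · exact h3
      · exact h4

open Classical in
theorem rep_count (X : ℕ) :
    ((Finset.Icc 1 X).filter fun n : ℕ => S3 n ∧ (n : ZMod q) ∉ B).card ≤
      (UU B X).card + (((bx X).filter fun p => p 0 = p 1).card + ((bx X).filter fun p => p 1 = p 2).card) := by
  refine le_trans ?_ (le_trans (Finset.card_union_le _ _)
    (Nat.add_le_add_left (Finset.card_union_le _ _) _))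
  refine Finset.card_le_card_of_surjOn (fun p => ∑ i, p i ^ 3) ?_
  intro n hn
  obtain ⟨h1, ⟨a, b, c, h2⟩, h3⟩ := Finset.mem_filter.1 (Finset.mem_coe.1 hn)
  obtain ⟨p, hpm, hps⟩ : ∃ p : Fin 3 → ℕ, Monotone p ∧ ∑ i, p i ^ 3 = n := by
    refine ⟨![a, b, c] ∘ Tuple.sort ![a, b, c], Tuple.monotone_sort _, ?_⟩
    rw [← h2]
    have := Equiv.sum_comp (Tuple.sort ![a, b, c]) fun i => (![a, b, c] : Fin 3 → ℕ) i ^ 3
    simp only [Function.comp_apply]
    rw [this, Fin.sum_univ_three]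
    rfl
  have hle : ∑ i, p i ^ 3 ≤ X := by rw [hps]; exact (Finset.mem_Icc.1 h1).2
  have hbx : p ∈ bx X := mem_bx hle
  have hB : ∑ i, (p i : ZMod q) ^ 3 ∉ B := by
    have : ∑ i, (p i : ZMod q) ^ 3 = (n : ZMod q) := by
      rw [← hps]
      push_cast
      rfl
    rw [this]
    exact h3
  refine ⟨p, ?_, hps⟩
  rcases mono_cases hpm with h | h | h
  · exact Finset.mem_coe.2 (Finset.mem_union_left _ (Finset.mem_filter.2 ⟨hbx, h, hle, hB⟩))
  · exact Finset.mem_coe.2 (Finset.mem_union_right _ (Finset.mem_union_left _ (Finset.mem_filter.2 ⟨hbx, h⟩)))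
  · exact Finset.mem_coe.2 (Finset.mem_union_right _ (Finset.mem_union_right _ (Finset.mem_filter.2 ⟨hbx, h⟩)))

/-- The bound. -/
theorem NX_le (X : ℕ) : (NX X : ℝ) ≤ B.card * ((X : ℝ) / q + 1) +
    (mB B / 6) * (V * ((X : ℝ) ^ (1 / (3 : ℝ)) / q + 3 ^ (1 / (3 : ℝ))) ^ 3) +
      2 * ((X : ℝ) ^ (1 / (3 : ℝ)) + 1) ^ 2 := by
  classical
  have h1 : NX X ≤ ((Finset.Icc 1 X).filter fun n : ℕ => (n : ZMod q) ∈ B).card +
      ((Finset.Icc 1 X).filter fun n : ℕ => S3 n ∧ (n : ZMod q) ∉ B).card := by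
    unfold NX
    refine le_trans (Finset.card_le_card ?_) (Finset.card_union_le _ _)
    intro n hn
    obtain ⟨h1, h2⟩ := Finset.mem_filter.1 hn
    by_cases h3 : (n : ZMod q) ∈ B
    · exact Finset.mem_union_left _ (Finset.mem_filter.2 ⟨h1, h3⟩)
    · exact Finset.mem_union_right _ (Finset.mem_filter.2 ⟨h1, h2, h3⟩)
  have h2 : (((Finset.Icc 1 X).filter fun n : ℕ => (n : ZMod q) ∈ B).card : ℝ) ≤
      B.card * ((X : ℝ) / q + 1) := by
    have h := class_count B X
    have h' : (((Finset.Icc 1 X).filter fun n : ℕ => (n : ZMod q) ∈ B).card : ℝ) ≤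
        (B.card : ℝ) * (((X / q : ℕ) : ℝ) + 1) := by exact_mod_cast h
    refine le_trans h' (mul_le_mul_of_nonneg_left ?_ (Nat.cast_nonneg _))
    have := @Nat.cast_div_le ℝ _ _ _ X q
    linarith
  have h3 := rep_count B X
  have h4 : ((UU B X).card : ℝ) ≤
      (mB B / 6) * (V * ((X : ℝ) ^ (1 / (3 : ℝ)) / q + 3 ^ (1 / (3 : ℝ))) ^ 3) := by
    have h5 := six_UU B X
    have h6 : (6 : ℝ) * (UU B X).card ≤ (TT B X).card := by exact_mod_cast h5
    have h7 := card_TT B X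
    have h8 : (mB B / 6 : ℝ) * (V * ((X : ℝ) ^ (1 / (3 : ℝ)) / q + 3 ^ (1 / (3 : ℝ))) ^ 3) =
      (mB B * (V * ((X : ℝ) ^ (1 / (3 : ℝ)) / q + 3 ^ (1 / (3 : ℝ))) ^ 3)) / 6 := by ring
    rw [h8]
    linarith
  have h5 := card_eq X 0 1 (by decide)
  have h6 := card_eq X 1 2 (by decide)
  have h7 : (NX X : ℝ) ≤ (((Finset.Icc 1 X).filter fun n : ℕ => (n : ZMod q) ∈ B).card : ℝ) +
      ((UU B X).card + ((((bx X).filter fun p => p 0 = p 1).card : ℝ) +
        (((bx X).filter fun p => p 1 = p 2).card : ℝ))) := by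
    have := le_trans h1 (Nat.add_le_add_left h3 _)
    exact_mod_cast this
  linarith

end

end Pool.Agent.Lib.MP_225355_nt
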