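import Pool.Agent.Lib.MP_225355_nt.Asym

/-!
# The number of representations as a sum of three cubes in a finite ring
-/

namespace Pool.Agent.Lib.MP_225355_nt

open Filter Topology

section ring

variable (R S : Type*) [CommRing R] [Fintype R] [DecidableEq R] [CommRing S] [Fintype S] [DecidableEq S]

/-- the number of solutions of `u₀³ + u₁³ + u₂³ = b` in the finite ring `R` -/
def rho (b : R) : ℕ := (Finset.univ.filter fun u : Fin 3 → R => ∑ i, u i ^ 3 = b).card

theorem rho_prod (p : R × S) : rho (R × S) p = rho R p.1 * rho S p.2 := by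
  unfold rho
  rw [← Finset.card_product]
  refine Finset.card_bij' (fun u _ => ((fun i => (u i).1), (fun i => (u i).2)))
    (fun w _ => fun i => (w.1 i, w.2 i)) ?_ ?_ ?_ ?_
  · intro u hu
    rw [Finset.mem_filter, Fin.sum_univ_three] at hu
    rw [Finset.mem_product, Finset.mem_filter, Finset.mem_filter, Fin.sum_univ_three, Fin.sum_univ_three]
    exact ⟨⟨Finset.mem_univ _, congrArg Prod.fst hu.2⟩, ⟨Finset.mem_univ _, congrArg Prod.snd hu.2⟩⟩
  · intro w hw
    rw [Finset.mem_product, Finset.mem_filter, Finset.mem_filter, Fin.sum_univ_three, Fin.sum_univ_three] at hw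
    rw [Finset.mem_filter, Fin.sum_univ_three]
    exact ⟨Finset.mem_univ _, Prod.ext hw.1.2 hw.2.2⟩
  · intro u _
    rfl
  · intro w _
    rfl

variable {R S}

theorem rho_equiv (e : R ≃+* S) (b : R) : rho S (e b) = rho R b := by
  unfold rho
  refine (Finset.card_bij' (fun u _ => fun i => e (u i)) (fun w _ => fun i => e.symm (w i)) ?_ ?_ ?_ ?_).symm
  · intro u hu
    rw [Finset.mem_filter] at hu ⊢
    refine ⟨Finset.mem_univ _, ?_⟩
    rw [← hu.2, map_sum]
    exact Finset.sum_congr rfl fun i _ => (map_pow e (u i) 3).symm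
  · intro w hw
    rw [Finset.mem_filter] at hw ⊢
    refine ⟨Finset.mem_univ _, ?_⟩
    apply e.injective
    rw [← hw.2, map_sum]
    refine Finset.sum_congr rfl fun i _ => ?_
    rw [map_pow, RingEquiv.apply_symm_apply]
  · intro u _
    funext i
    exact e.symm_apply_apply (u i)
  · intro w _
    funext i
    exact e.apply_symm_apply (w i)

variable (R S)

theorem sum_rho : ∑ b : R, rho R b = Fintype.card R ^ 3 := by
  unfold rho
  rw [← Finset.card_eq_sum_card_fiberwise (f := fun u : Fin 3 → R => ∑ i, u i ^ 3) (t := Finset.univ)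
    (fun u _ => Finset.mem_coe.2 (Finset.mem_univ _))]
  rw [Finset.card_univ, Fintype.card_fun, Fintype.card_fin]

/-- the excess -/
def GR (v M : ℕ) : ℕ := ∑ b : R, (v * rho R b - M)

theorem GR_prod (v M : ℕ) : GR (R × S) v M = ∑ b : R, GR S (v * rho R b) M := by
  unfold GR
  rw [Fintype.sum_prod_type]
  refine Finset.sum_congr rfl fun b _ => Finset.sum_congr rfl fun c _ => ?_
  rw [rho_prod, mul_assoc]

variable {R S}

theorem GR_equiv (e : R ≃+* S) (v M : ℕ) : GR R v M = GR S v M := by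
  unfold GR
  refine Fintype.sum_equiv e.toEquiv _ _ fun b => ?_
  rw [← rho_equiv e b]
  rfl

variable (R)

/-- `d` is the list of the values of `rho` with their multiplicities. -/
def IsDist (d : List (ℕ × ℕ)) : Prop :=
  ∀ F : ℕ → ℕ, ∑ b : R, F (rho R b) = (d.map fun p => p.2 * F p.1).sum

end ring

/-- A lower bound for the excess; the second component is only used to prune the computation. -/
def geval : List (List (ℕ × ℕ) × ℕ) → ℕ → ℕ → ℕ
  | [], v, M => v - M
  | (d, mx) :: rest, v, M =>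
    bif Nat.ble (v * mx) M then 0 else (d.map fun p => p.2 * geval rest (v * p.1) M).sum

theorem geval_nil (v M : ℕ) : geval [] v M ≤ GR (ZMod 1) v M := by
  unfold GR
  have h1 : rho (ZMod 1) 0 = 1 := by decide
  rw [Fintype.sum_subsingleton _ (0 : ZMod 1), h1, mul_one]
  exact le_refl _

theorem geval_cons {m n : ℕ} [NeZero m] [NeZero n] (h : m.Coprime n) {d : List (ℕ × ℕ)}
    (hd : IsDist (ZMod m) d) {rest : List (List (ℕ × ℕ) × ℕ)}
    (hr : ∀ v M, geval rest v M ≤ GR (ZMod n) v M) (mx : ℕ) (v M : ℕ) :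
    geval ((d, mx) :: rest) v M ≤ GR (ZMod (m * n)) v M := by
  rw [GR_equiv (ZMod.chineseRemainder h), GR_prod]
  have h1 : ∑ b : ZMod m, GR (ZMod n) (v * rho (ZMod m) b) M =
      (d.map fun p => p.2 * GR (ZMod n) (v * p.1) M).sum := hd fun r => GR (ZMod n) (v * r) M
  rw [h1]
  unfold geval
  cases Nat.ble (v * mx) M
  · exact List.sum_le_sum fun p _ => Nat.mul_le_mul_left _ (hr _ _)
  · exact Nat.zero_le _

section bound

variable {q : ℕ} [NeZero q]

theorem mB_eq (B : Finset (ZMod q)) : mB B = ∑ b ∈ Finset.univ.filter (fun b => b ∉ B), rho (ZMod q) b := by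
  unfold mB rho
  rw [Finset.card_eq_sum_card_fiberwise (f := fun u : Fin 3 → ZMod q => ∑ i, u i ^ 3)
    (t := Finset.univ.filter (fun b => b ∉ B))]
  · refine Finset.sum_congr rfl fun b hb => ?_
    rw [Finset.mem_filter] at hb
    congr 1
    ext u
    simp only [Finset.mem_filter, Finset.mem_univ, true_and]
    constructor
    · exact fun h => h.2
    · intro h
      rw [h]
      exact ⟨hb.2, rfl⟩
  · intro u hu
    simp only [Finset.coe_filter, Finset.mem_univ, true_and, Set.mem_setOf_eq] at hu ⊢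
    exact hu

/-- the bound for the modulus `q` -/
noncomputable def Sq (q : ℕ) [NeZero q] : ℝ :=
  ∑ b : ZMod q, min (1 / (q : ℝ)) (V * rho (ZMod q) b / (6 * (q : ℝ) ^ 3))

theorem Sq_nonneg : 0 ≤ Sq q :=
  Finset.sum_nonneg fun b _ => le_min (by positivity) (div_nonneg (mul_nonneg V_pos.le (by positivity)) (by positivity))

theorem NX_min {ε : ℝ} (hε : 0 < ε) : ∀ᶠ X : ℕ in atTop, (NX X : ℝ) ≤ (Sq q + ε) * X := by
  classical
  let B : Finset (ZMod q) := Finset.univ.filter fun b => 1 / (q : ℝ) ≤ V * rho (ZMod q) b / (6 * (q : ℝ) ^ 3)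
  have h1 : (B.card : ℝ) / q + V * mB B / (6 * (q : ℝ) ^ 3) = Sq q := by
    unfold Sq
    rw [mB_eq, ← Finset.sum_filter_add_sum_filter_not Finset.univ (fun b => b ∈ B)]
    congr 1
    · have h2 : ∀ b ∈ Finset.univ.filter (fun b => b ∈ B),
          min (1 / (q : ℝ)) (V * rho (ZMod q) b / (6 * (q : ℝ) ^ 3)) = 1 / (q : ℝ) := by
        intro b hb
        rw [Finset.mem_filter, Finset.mem_filter] at hb
        exact min_eq_left hb.2.2
      rw [Finset.sum_congr rfl h2, Finset.sum_const, Finset.filter_mem_eq_inter, Finset.univ_inter, nsmul_eq_mul]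
      ring
    · have h2 : ∀ b ∈ Finset.univ.filter (fun b => ¬ b ∈ B),
          min (1 / (q : ℝ)) (V * rho (ZMod q) b / (6 * (q : ℝ) ^ 3)) = V * rho (ZMod q) b / (6 * (q : ℝ) ^ 3) := by
        intro b hb
        rw [Finset.mem_filter, Finset.mem_filter] at hb
        refine min_eq_right ?_
        by_contra hn
        exact hb.2 ⟨Finset.mem_univ _, (not_le.1 hn).le⟩
      rw [Finset.sum_congr rfl h2, Nat.cast_sum, Finset.mul_sum, Finset.sum_div]
  rw [← h1]
  exact NX_asym B hε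

theorem Sq_le {l μ K : ℕ} (hμ : 0 < μ) (hl : (l : ℝ) / μ ≤ V / 6) (hK : K ≤ GR (ZMod q) l (μ * q ^ 2)) :
    Sq q ≤ V / 6 - K / (μ * (q : ℝ) ^ 3) := by
  have hq : 0 < q := Nat.pos_of_ne_zero (NeZero.ne q)
  have hq' : (0 : ℝ) < q := by exact_mod_cast hq
  have hμ' : (0 : ℝ) < μ := by exact_mod_cast hμ
  have h1 : ∀ b : ZMod q, min (1 / (q : ℝ)) (V * rho (ZMod q) b / (6 * (q : ℝ) ^ 3)) ≤
      V / (6 * (q : ℝ) ^ 3) * rho (ZMod q) b - ((l * rho (ZMod q) b - μ * q ^ 2 : ℕ) : ℝ) / (μ * (q : ℝ) ^ 3) := by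
    intro b
    obtain ⟨r, hr⟩ : ∃ r : ℕ, r = rho (ZMod q) b := ⟨_, rfl⟩
    rw [← hr]
    rcases Nat.le_total (l * r) (μ * q ^ 2) with h | h
    · rw [Nat.sub_eq_zero_of_le h, Nat.cast_zero, zero_div, sub_zero]
      refine (min_le_right _ _).trans (le_of_eq ?_)
      ring
    · rw [Nat.cast_sub h]
      refine (min_le_left _ _).trans ?_
      push_cast
      have h3 : (l : ℝ) * r / (μ * (q : ℝ) ^ 3) ≤ V / (6 * (q : ℝ) ^ 3) * r := by
        have h4 : (l : ℝ) * r / (μ * (q : ℝ) ^ 3) = (l / μ) * (r / (q : ℝ) ^ 3) := by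
          field_simp
        have h5 : V / (6 * (q : ℝ) ^ 3) * r = (V / 6) * (r / (q : ℝ) ^ 3) := by
          field_simp
        rw [h4, h5]
        exact mul_le_mul_of_nonneg_right hl (by positivity)
      have h6 : ((l : ℝ) * r - μ * (q : ℝ) ^ 2) / (μ * (q : ℝ) ^ 3) =
          l * r / (μ * (q : ℝ) ^ 3) - 1 / q := by
        field_simp
      rw [h6]
      linarith
  have h2 : Sq q ≤ ∑ b : ZMod q, (V / (6 * (q : ℝ) ^ 3) * rho (ZMod q) b -
      ((l * rho (ZMod q) b - μ * q ^ 2 : ℕ) : ℝ) / (μ * (q : ℝ) ^ 3)) := Finset.sum_le_sum fun b _ => h1 b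
  refine h2.trans ?_
  rw [Finset.sum_sub_distrib, ← Finset.mul_sum, ← Finset.sum_div, ← Nat.cast_sum, ← Nat.cast_sum, sum_rho, ZMod.card]
  have h7 : V / (6 * (q : ℝ) ^ 3) * ((q ^ 3 : ℕ) : ℝ) = V / 6 := by
    push_cast
    field_simp
  rw [h7]
  have h8 : (K : ℝ) ≤ ((∑ b : ZMod q, (l * rho (ZMod q) b - μ * q ^ 2) : ℕ) : ℝ) := by
    exact_mod_cast hK
  have h9 : (K : ℝ) / (μ * (q : ℝ) ^ 3) ≤
      ((∑ b : ZMod q, (l * rho (ZMod q) b - μ * q ^ 2) : ℕ) : ℝ) / (μ * (q : ℝ) ^ 3) :=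
    div_le_div_of_nonneg_right h8 (by positivity)
  linarith

end bound

end Pool.Agent.Lib.MP_225355_nt
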