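import Pool.Agent.Lib.MP_225355_nt.Tab

/-!
# The distributions for the moduli used
-/

namespace Pool.Agent.Lib.MP_225355_nt

/-- the values of `rho` modulo 64 -/
def d64 : List (ℕ × ℕ) := [(10240, 1), (7168, 4), (6144, 3), (4096, 32), (3072, 24)]

theorem isDist_64 : IsDist (ZMod 64) d64 :=
  isDist_of (m := 64) (B := 2 ^ 32) (by norm_num) (by decide +kernel)

/-- the values of `rho` modulo 243 -/
def d243 : List (ℕ × ℕ) := [(255879, 1), (236196, 2), (177147, 2), (137781, 2), (118098, 74), (59049, 54), (19683, 54), (0, 54)]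

theorem isDist_243 : IsDist (ZMod 243) d243 :=
  isDist_of (m := 243) (B := 2 ^ 32) (by norm_num) (by decide +kernel)

/-- the values of `rho` modulo 7 -/
def d7 : List (ℕ × ℕ) := [(90, 2), (55, 1), (27, 4)]

theorem isDist_7 : IsDist (ZMod 7) d7 :=
  isDist_of (m := 7) (B := 2 ^ 32) (by norm_num) (by decide +kernel)

/-- the values of `rho` modulo 13 -/
def d13 : List (ℕ × ℕ) := [(252, 4), (135, 8), (109, 1)]

theorem isDist_13 : IsDist (ZMod 13) d13 :=
  isDist_of (m := 13) (B := 2 ^ 32) (by norm_num) (by decide +kernel)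

/-- the values of `rho` modulo 19 -/
def d19 : List (ℕ × ℕ) := [(487, 1), (468, 6), (297, 12)]

theorem isDist_19 : IsDist (ZMod 19) d19 :=
  isDist_of (m := 19) (B := 2 ^ 32) (by norm_num) (by decide +kernel)

/-- the values of `rho` modulo 31 -/
def d31 : List (ℕ × ℕ) := [(1143, 10), (1081, 1), (864, 20)]

theorem isDist_31 : IsDist (ZMod 31) d31 :=
  isDist_of (m := 31) (B := 2 ^ 32) (by norm_num) (by decide +kernel)

/-- the values of `rho` modulo 37 -/
def d37 : List (ℕ × ℕ) := [(1602, 12), (1269, 24), (973, 1)]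

theorem isDist_37 : IsDist (ZMod 37) d37 :=
  isDist_of (m := 37) (B := 2 ^ 32) (by norm_num) (by decide +kernel)

/-- the values of `rho` modulo 43 -/
def d43 : List (ℕ × ℕ) := [(2115, 14), (1728, 28), (1513, 1)]

theorem isDist_43 : IsDist (ZMod 43) d43 :=
  isDist_of (m := 43) (B := 2 ^ 32) (by norm_num) (by decide +kernel)

/-- the values of `rho` modulo 61 -/
def d61 : List (ℕ × ℕ) := [(4086, 20), (3781, 1), (3537, 40)]

theorem isDist_61 : IsDist (ZMod 61) d61 :=
  isDist_of (m := 61) (B := 2 ^ 32) (by norm_num) (by decide +kernel)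

/-- the values of `rho` modulo 67 -/
def d67 : List (ℕ × ℕ) := [(4896, 22), (4293, 44), (4159, 1)]

theorem isDist_67 : IsDist (ZMod 67) d67 :=
  isDist_of (m := 67) (B := 2 ^ 32) (by norm_num) (by decide +kernel)

end Pool.Agent.Lib.MP_225355_nt
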