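import Pool.Agent.Lib.MP_225355_nt.Vol

/-!
# Numerical bounds for `Γ(4/3)³`
-/

namespace Pool.Agent.Lib.MP_225355_nt

/-- `4 · 7 · ... · (3 n + 1)` -/
def Qp : ℕ → ℕ
  | 0 => 1
  | n + 1 => Qp n * (3 * n + 4)

theorem Qp_pos (n : ℕ) : 0 < Qp n := by
  induction n with
  | zero => exact Nat.one_pos
  | succ n ih => exact Nat.mul_pos ih (by omega)

theorem gamma_Qp (n : ℕ) : Real.Gamma ((n : ℝ) + 4 / 3) * 3 ^ n = Real.Gamma (4 / 3) * Qp n := by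
  induction n with
  | zero => simp [Qp]
  | succ n ih =>
    have h1 : ((n + 1 : ℕ) : ℝ) + 4 / 3 = ((n : ℝ) + 4 / 3) + 1 := by push_cast; ring
    rw [h1, Real.Gamma_add_one (by positivity)]
    have h2 : ((Qp (n + 1) : ℕ) : ℝ) = Qp n * (3 * n + 4) := by
      simp only [Qp]
      push_cast
      ring
    rw [h2, pow_succ]
    have h3 : ((n : ℝ) + 4 / 3) * Real.Gamma ((n : ℝ) + 4 / 3) * (3 ^ n * 3) =
      (Real.Gamma ((n : ℝ) + 4 / 3) * 3 ^ n) * (3 * n + 4) := by ring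
    rw [h3, ih]
    ring

theorem rpow_third {x : ℝ} (hx : 0 ≤ x) : (x ^ (1 / (3 : ℝ))) ^ 3 = x := by
  rw [← Real.rpow_natCast, ← Real.rpow_mul hx]
  norm_num

theorem rpow_two_third {x : ℝ} (hx : 0 ≤ x) : (x ^ (2 / (3 : ℝ))) ^ 3 = x ^ 2 := by
  rw [← Real.rpow_natCast, ← Real.rpow_mul hx]
  norm_num

/-- lower bound -/
theorem V_lower (n : ℕ) : 9 * (((n + 1).factorial : ℕ) : ℝ) ^ 3 * 27 ^ n ≤
    V * ((Qp n : ℕ) : ℝ) ^ 3 * (3 * n + 4) ^ 2 := by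
  have hg := Real.Gamma_mul_add_mul_le_rpow_Gamma_mul_rpow_Gamma (s := (n : ℝ) + 4 / 3) (t := (n : ℝ) + 7 / 3)
    (a := 1 / 3) (b := 2 / 3) (by positivity) (by positivity) (by norm_num) (by norm_num) (by norm_num)
  have h1 : (1 / 3 : ℝ) * ((n : ℝ) + 4 / 3) + 2 / 3 * ((n : ℝ) + 7 / 3) = ((n + 1 : ℕ) : ℝ) + 1 := by
    push_cast
    ring
  rw [h1, Real.Gamma_nat_eq_factorial] at hg
  have hG0 : 0 < Real.Gamma ((n : ℝ) + 4 / 3) := Real.Gamma_pos_of_pos (by positivity)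
  have h2 : Real.Gamma ((n : ℝ) + 7 / 3) = ((n : ℝ) + 4 / 3) * Real.Gamma ((n : ℝ) + 4 / 3) := by
    rw [← Real.Gamma_add_one (by positivity)]
    congr 1
    ring
  have h3 : (((n + 1).factorial : ℕ) : ℝ) ^ 3 ≤
      Real.Gamma ((n : ℝ) + 4 / 3) * (Real.Gamma ((n : ℝ) + 7 / 3)) ^ 2 := by
    refine le_trans (pow_le_pow_left₀ (Nat.cast_nonneg _) hg 3) (le_of_eq ?_)
    rw [mul_pow, rpow_third hG0.le, rpow_two_third (by rw [h2]; positivity)]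
  rw [h2] at h3
  have h4 := gamma_Qp n
  have h5 : V * ((Qp n : ℕ) : ℝ) ^ 3 = Real.Gamma ((n : ℝ) + 4 / 3) ^ 3 * 27 ^ n := by
    unfold V
    have : (27 : ℝ) ^ n = (3 ^ n) ^ 3 := by
      rw [← pow_mul, mul_comm n 3, pow_mul]
      norm_num
    rw [this, ← mul_pow, ← mul_pow, h4]
  rw [h5]
  have h6 : Real.Gamma ((n : ℝ) + 4 / 3) ^ 3 * 27 ^ n * (3 * n + 4) ^ 2 =
      (9 * 27 ^ n) * (Real.Gamma ((n : ℝ) + 4 / 3) * (((n : ℝ) + 4 / 3) * Real.Gamma ((n : ℝ) + 4 / 3)) ^ 2) := by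
    ring
  rw [h6]
  have h7 := mul_le_mul_of_nonneg_left h3 (by positivity : (0 : ℝ) ≤ 9 * 27 ^ n)
  linarith

/-- upper bound -/
theorem V_upper (n : ℕ) : V * ((Qp n : ℕ) : ℝ) ^ 3 * (n + 1) ^ 2 ≤
    (((n + 1).factorial : ℕ) : ℝ) ^ 3 * 27 ^ n := by
  have hg := Real.Gamma_mul_add_mul_le_rpow_Gamma_mul_rpow_Gamma (s := (n : ℝ) + 1) (t := (n : ℝ) + 2)
    (a := 2 / 3) (b := 1 / 3) (by positivity) (by positivity) (by norm_num) (by norm_num) (by norm_num)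
  have h1 : (2 / 3 : ℝ) * ((n : ℝ) + 1) + 1 / 3 * ((n : ℝ) + 2) = (n : ℝ) + 4 / 3 := by ring
  have h2 : Real.Gamma ((n : ℝ) + 2) = (((n + 1).factorial : ℕ) : ℝ) := by
    rw [← Real.Gamma_nat_eq_factorial]
    congr 1
    push_cast
    ring
  rw [h1, Real.Gamma_nat_eq_factorial, h2] at hg
  have hG0 : 0 < Real.Gamma ((n : ℝ) + 4 / 3) := Real.Gamma_pos_of_pos (by positivity)
  have h3 : Real.Gamma ((n : ℝ) + 4 / 3) ^ 3 ≤
      ((n.factorial : ℕ) : ℝ) ^ 2 * (((n + 1).factorial : ℕ) : ℝ) := by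
    refine le_trans (pow_le_pow_left₀ hG0.le hg 3) (le_of_eq ?_)
    rw [mul_pow, rpow_third (Nat.cast_nonneg _), rpow_two_third (Nat.cast_nonneg _)]
  have h4 := gamma_Qp n
  have h5 : V * ((Qp n : ℕ) : ℝ) ^ 3 = Real.Gamma ((n : ℝ) + 4 / 3) ^ 3 * 27 ^ n := by
    unfold V
    have : (27 : ℝ) ^ n = (3 ^ n) ^ 3 := by
      rw [← pow_mul, mul_comm n 3, pow_mul]
      norm_num
    rw [this, ← mul_pow, ← mul_pow, h4]
  rw [h5]
  have h8 : (((n + 1).factorial : ℕ) : ℝ) = (n + 1) * ((n.factorial : ℕ) : ℝ) := by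
    rw [Nat.factorial_succ]
    push_cast
    ring
  have h6 : (((n + 1).factorial : ℕ) : ℝ) ^ 3 * 27 ^ n =
      (27 ^ n * (n + 1) ^ 2) * (((n.factorial : ℕ) : ℝ) ^ 2 * (((n + 1).factorial : ℕ) : ℝ)) := by
    rw [h8]
    ring
  rw [h6]
  have h7 := mul_le_mul_of_nonneg_left h3 (by positivity : (0 : ℝ) ≤ 27 ^ n * ((n : ℝ) + 1) ^ 2)
  linarith

theorem V_ge_of (n l : ℕ) (h : l * Qp n ^ 3 * (3 * n + 4) ^ 2 ≤ 9 * 10 ^ 6 * (n + 1).factorial ^ 3 * 27 ^ n) :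
    (l : ℝ) / 10 ^ 6 ≤ V := by
  have h1 := V_lower n
  have h2 : (l : ℝ) * (Qp n : ℝ) ^ 3 * (3 * n + 4) ^ 2 ≤
      9 * 10 ^ 6 * (((n + 1).factorial : ℕ) : ℝ) ^ 3 * 27 ^ n := by exact_mod_cast h
  have hQ : (0 : ℝ) < Qp n := by exact_mod_cast Qp_pos n
  have h0 : (0 : ℝ) < (Qp n : ℝ) ^ 3 * (3 * n + 4) ^ 2 := by positivity
  rw [div_le_iff₀ (by positivity)]
  by_contra hc
  push Not at hc
  have h4 := mul_lt_mul_of_pos_right hc h0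
  linarith

theorem V_le_of (n l : ℕ) (h : 10 ^ 6 * (n + 1).factorial ^ 3 * 27 ^ n ≤ l * Qp n ^ 3 * (n + 1) ^ 2) :
    V ≤ (l : ℝ) / 10 ^ 6 := by
  have h1 := V_upper n
  have h2 : (10 : ℝ) ^ 6 * (((n + 1).factorial : ℕ) : ℝ) ^ 3 * 27 ^ n ≤
      l * (Qp n : ℝ) ^ 3 * (n + 1) ^ 2 := by exact_mod_cast h
  have hQ : (0 : ℝ) < Qp n := by exact_mod_cast Qp_pos n
  have h0 : (0 : ℝ) < (Qp n : ℝ) ^ 3 * (n + 1) ^ 2 := by positivity
  rw [le_div_iff₀ (by positivity)]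
  by_contra hc
  push Not at hc
  have h4 := mul_lt_mul_of_pos_right hc h0
  linarith

theorem chkL : 712014 * Qp 4095 ^ 3 * (3 * 4095 + 4) ^ 2 ≤ 9 * 10 ^ 6 * (4095 + 1).factorial ^ 3 * 27 ^ 4095 := by
  decide +kernel

theorem chkU : 10 ^ 6 * (4095 + 1).factorial ^ 3 * 27 ^ 4095 ≤ 712132 * Qp 4095 ^ 3 * (4095 + 1) ^ 2 := by
  decide +kernel

/-- `0.118669 ≤ Γ(4/3)³/6` -/
theorem V_ge : 0.712014 ≤ V := by
  have h := V_ge_of 4095 712014 chkL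
  norm_num at h
  norm_num
  exact h

/-- `Γ(4/3)³/6 ≤ 0.118689` -/
theorem V_le : V ≤ 0.712132 := by
  have h := V_le_of 4095 712132 chkU
  norm_num at h
  norm_num
  exact h

end Pool.Agent.Lib.MP_225355_nt
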