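import Pool.Agent.Lib.MP_225355_nt.Dist
import Pool.Agent.Lib.MP_225355_nt.Gam

/-!
# The explicit bound
-/

namespace Pool.Agent.Lib.MP_225355_nt

open Filter Topology

/-- the moduli with the distributions -/
def ls : List (List (ℕ × ℕ) × ℕ) := [(d64, 2242154308745024322621412737024000), (d243, 218960381713381281505997337600), (d7, 855718451742351976934400), (d13, 9507982797137244188160), (d19, 37730090464830334080), (d31, 77474518408275840), (d37, 67781730890880), (d43, 42310693440), (d61, 20005056), (d67, 4896)]

theorem ls_eval : 303591102964533172764792420566544955460476265877504 ≤ geval ls 118669 29378898181767017847093347782656000000 := by decide +kernel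

theorem ge9 (v M : ℕ) : geval [(d67, 4896)] v M ≤
    GR (ZMod (67 * 1)) v M :=
  geval_cons (by decide +kernel) isDist_67 geval_nil _ v M

theorem ge8 (v M : ℕ) : geval [(d61, 20005056), (d67, 4896)] v M ≤
    GR (ZMod (61 * (67 * 1))) v M :=
  geval_cons (by decide +kernel) isDist_61 ge9 _ v M

theorem ge7 (v M : ℕ) : geval [(d43, 42310693440), (d61, 20005056), (d67, 4896)] v M ≤
    GR (ZMod (43 * (61 * (67 * 1)))) v M :=
  geval_cons (by decide +kernel) isDist_43 ge8 _ v M

theorem ge6 (v M : ℕ) : geval [(d37, 67781730890880), (d43, 42310693440), (d61, 20005056), (d67, 4896)] v M ≤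
    GR (ZMod (37 * (43 * (61 * (67 * 1))))) v M :=
  geval_cons (by decide +kernel) isDist_37 ge7 _ v M

theorem ge5 (v M : ℕ) : geval [(d31, 77474518408275840), (d37, 67781730890880), (d43, 42310693440), (d61, 20005056), (d67, 4896)] v M ≤
    GR (ZMod (31 * (37 * (43 * (61 * (67 * 1)))))) v M :=
  geval_cons (by decide +kernel) isDist_31 ge6 _ v M

theorem ge4 (v M : ℕ) : geval [(d19, 37730090464830334080), (d31, 77474518408275840), (d37, 67781730890880), (d43, 42310693440), (d61, 20005056), (d67, 4896)] v M ≤
    GR (ZMod (19 * (31 * (37 * (43 * (61 * (67 * 1))))))) v M :=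
  geval_cons (by decide +kernel) isDist_19 ge5 _ v M

theorem ge3 (v M : ℕ) : geval [(d13, 9507982797137244188160), (d19, 37730090464830334080), (d31, 77474518408275840), (d37, 67781730890880), (d43, 42310693440), (d61, 20005056), (d67, 4896)] v M ≤
    GR (ZMod (13 * (19 * (31 * (37 * (43 * (61 * (67 * 1)))))))) v M :=
  geval_cons (by decide +kernel) isDist_13 ge4 _ v M

theorem ge2 (v M : ℕ) : geval [(d7, 855718451742351976934400), (d13, 9507982797137244188160), (d19, 37730090464830334080), (d31, 77474518408275840), (d37, 67781730890880), (d43, 42310693440), (d61, 20005056), (d67, 4896)] v M ≤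
    GR (ZMod (7 * (13 * (19 * (31 * (37 * (43 * (61 * (67 * 1))))))))) v M :=
  geval_cons (by decide +kernel) isDist_7 ge3 _ v M

theorem ge1 (v M : ℕ) : geval [(d243, 218960381713381281505997337600), (d7, 855718451742351976934400), (d13, 9507982797137244188160), (d19, 37730090464830334080), (d31, 77474518408275840), (d37, 67781730890880), (d43, 42310693440), (d61, 20005056), (d67, 4896)] v M ≤
    GR (ZMod (243 * (7 * (13 * (19 * (31 * (37 * (43 * (61 * (67 * 1)))))))))) v M :=
  geval_cons (by decide +kernel) isDist_243 ge2 _ v M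

theorem ge0 (v M : ℕ) : geval [(d64, 2242154308745024322621412737024000), (d243, 218960381713381281505997337600), (d7, 855718451742351976934400), (d13, 9507982797137244188160), (d19, 37730090464830334080), (d31, 77474518408275840), (d37, 67781730890880), (d43, 42310693440), (d61, 20005056), (d67, 4896)] v M ≤
    GR (ZMod (64 * (243 * (7 * (13 * (19 * (31 * (37 * (43 * (61 * (67 * 1))))))))))) v M :=
  geval_cons (by decide +kernel) isDist_64 ge1 _ v M

theorem GR_ge : 303591102964533172764792420566544955460476265877504 ≤ GR (ZMod (64 * (243 * (7 * (13 * (19 * (31 * (37 * (43 * (61 * (67 * 1))))))))))) 118669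
    (1000000 * (64 * (243 * (7 * (13 * (19 * (31 * (37 * (43 * (61 * (67 * 1)))))))))) ^ 2) := by
  have h1 := ls_eval.trans (ge0 118669 29378898181767017847093347782656000000)
  have h2 : 1000000 * (64 * (243 * (7 * (13 * (19 * (31 * (37 * (43 * (61 * (67 * 1)))))))))) ^ 2 = 29378898181767017847093347782656000000 := by norm_num
  rw [h2]
  exact h1

theorem Sq_lt : Sq (64 * (243 * (7 * (13 * (19 * (31 * (37 * (43 * (61 * (67 * 1)))))))))) < V / 6 - 0.0019 := by
  have hl : ((118669 : ℕ) : ℝ) / ((1000000 : ℕ) : ℝ) ≤ V / 6 := by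
    have := V_ge
    push_cast
    linarith
  have h := Sq_le (q := 64 * (243 * (7 * (13 * (19 * (31 * (37 * (43 * (61 * (67 * 1)))))))))) (l := 118669) (μ := 1000000)
    (by norm_num) hl GR_ge
  refine h.trans_lt (sub_lt_sub_left ?_ _)
  push_cast
  norm_num

end Pool.Agent.Lib.MP_225355_nt
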