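import Pool.Agent.Lib.MP_225355_nt.Crt

/-!
# Computation of the distribution of the number of representations modulo `m`

The numbers `rho b`, `b` mod `m`, are the digits in base `B` of `(∑ B ^ (a ^ 3 % m)) ^ 3` modulo `B ^ m - 1`.
-/

namespace Pool.Agent.Lib.MP_225355_nt

/-- the `k` lowest digits -/
def digs (B : ℕ) : ℕ → ℕ → List ℕ
  | 0, _ => []
  | k + 1, n => (n % B) :: digs B k (n / B)

/-- the sum of the `B ^ (a ^ 3 % m)`, `a < k` -/
def PP (B m : ℕ) : ℕ → ℕ
  | 0 => 0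
  | k + 1 => B ^ (k ^ 3 % m) + PP B m k

theorem PP_eq (B m k : ℕ) : PP B m k = ∑ a ∈ Finset.range k, B ^ (a ^ 3 % m) := by
  induction k with
  | zero => rfl
  | succ k ih => rw [Finset.sum_range_succ, ← ih, PP, add_comm]

theorem digs_eq {B : ℕ} (hB : 0 < B) (k : ℕ) (f : ℕ → ℕ) (hf : ∀ i, f i < B) :
    digs B k (∑ i ∈ Finset.range k, f i * B ^ i) = (List.range k).map f := by
  induction k generalizing f with
  | zero => rfl
  | succ k ih =>
    have h1 : ∑ i ∈ Finset.range (k + 1), f i * B ^ i = f 0 + B * ∑ i ∈ Finset.range k, f (i + 1) * B ^ i := by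
      rw [Finset.sum_range_succ', pow_zero, mul_one, add_comm, Finset.mul_sum]
      congr 1
      refine Finset.sum_congr rfl fun i _ => ?_
      rw [pow_succ]
      ring
    have h2 : (f 0 + B * ∑ i ∈ Finset.range k, f (i + 1) * B ^ i) % B = f 0 := by
      rw [Nat.add_mul_mod_self_left, Nat.mod_eq_of_lt (hf 0)]
    have h3 : (f 0 + B * ∑ i ∈ Finset.range k, f (i + 1) * B ^ i) / B = ∑ i ∈ Finset.range k, f (i + 1) * B ^ i := by
      rw [Nat.add_mul_div_left _ _ hB, Nat.div_eq_of_lt (hf 0), zero_add]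
    rw [h1, digs, h2, h3, ih (fun i => f (i + 1)) fun i => hf (i + 1), List.range_succ_eq_map, List.map_cons,
      List.map_map]
    rfl

section

variable {m : ℕ} [NeZero m]

theorem sum_range_zmod {M : Type*} [AddCommMonoid M] (f : ZMod m → M) :
    ∑ i ∈ Finset.range m, f (i : ZMod m) = ∑ x : ZMod m, f x := by
  refine Finset.sum_nbij' (fun i => (i : ZMod m)) (fun x => x.val) ?_ ?_ ?_ ?_ ?_
  · intro i _
    exact Finset.mem_univ _
  · intro x _
    exact Finset.mem_range.2 (ZMod.val_lt x)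
  · intro i hi
    exact ZMod.val_cast_of_lt (Finset.mem_range.1 hi)
  · intro x _
    exact ZMod.natCast_zmod_val x
  · intro i _
    rfl

omit [NeZero m] in
theorem pow_mod {R : Type*} [CommRing R] {T : R} (hT : T ^ m = 1) (k : ℕ) : T ^ (k % m) = T ^ k := by
  conv_rhs => rw [← Nat.div_add_mod k m, pow_add, pow_mul, hT, one_pow, one_mul]

theorem key {R : Type*} [CommRing R] {T : R} (hT : T ^ m = 1) :
    (∑ a ∈ Finset.range m, T ^ (a ^ 3 % m)) ^ 3 = ∑ i ∈ Finset.range m, (rho (ZMod m) (i : ZMod m) : R) * T ^ i := by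
  let χ : ZMod m → R := fun x => T ^ x.val
  have hn : ∀ n : ℕ, χ (n : ZMod m) = T ^ n := by
    intro n
    simp only [χ]
    rw [ZMod.val_natCast, pow_mod hT]
  have ha : ∀ x y : ZMod m, χ (x + y) = χ x * χ y := by
    intro x y
    rw [← ZMod.natCast_zmod_val x, ← ZMod.natCast_zmod_val y, ← Nat.cast_add, hn, hn, hn, pow_add]
  have h1 : ∑ a ∈ Finset.range m, T ^ (a ^ 3 % m) = ∑ x : ZMod m, χ (x ^ 3) := by
    rw [← sum_range_zmod]
    refine Finset.sum_congr rfl fun a _ => ?_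
    rw [← Nat.cast_pow, hn, pow_mod hT]
  have h2 : ∑ i ∈ Finset.range m, (rho (ZMod m) (i : ZMod m) : R) * T ^ i =
      ∑ x : ZMod m, (rho (ZMod m) x : R) * χ x := by
    rw [← sum_range_zmod]
    refine Finset.sum_congr rfl fun a _ => ?_
    rw [hn]
  rw [h1, h2, Fintype.sum_pow]
  have h3 : ∀ u : Fin 3 → ZMod m, ∏ i, χ (u i ^ 3) = χ (∑ i, u i ^ 3) := by
    intro u
    rw [Fin.prod_univ_three, Fin.sum_univ_three, ha, ha]
  rw [Finset.sum_congr rfl fun u _ => h3 u]
  rw [← Finset.sum_fiberwise_of_maps_to (s := Finset.univ) (t := Finset.univ)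
    (g := fun u : Fin 3 → ZMod m => ∑ i, u i ^ 3) (fun u _ => Finset.mem_univ _)]
  refine Finset.sum_congr rfl fun b _ => ?_
  have h4 : ∀ u ∈ Finset.univ.filter (fun u : Fin 3 → ZMod m => ∑ i, u i ^ 3 = b), χ (∑ i, u i ^ 3) = χ b := by
    intro u hu
    rw [(Finset.mem_filter.1 hu).2]
  rw [Finset.sum_congr rfl h4, Finset.sum_const, nsmul_eq_mul]
  rfl

theorem rho_le (b : ZMod m) : rho (ZMod m) b ≤ m ^ 3 := by
  have h := sum_rho (ZMod m)
  rw [ZMod.card] at h
  rw [← h]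
  exact Finset.single_le_sum (fun _ _ => Nat.zero_le _) (Finset.mem_univ b)

theorem digs_rho {B : ℕ} (hB : m ^ 3 + 2 ≤ B) :
    digs B m (PP B m m ^ 3 % (B ^ m - 1)) = (List.range m).map fun i : ℕ => rho (ZMod m) (i : ZMod m) := by
  have hm : 0 < m := Nat.pos_of_ne_zero (NeZero.ne m)
  have hB0 : 0 < B := by omega
  obtain ⟨k, rfl⟩ : ∃ k, m = k + 1 := ⟨m - 1, by omega⟩
  have hpk : 1 ≤ B ^ k := Nat.one_le_pow _ _ hB0
  have hlt : ∑ i ∈ Finset.range (k + 1), rho (ZMod (k + 1)) (i : ZMod (k + 1)) * B ^ i < B ^ (k + 1) - 1 := by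
    have h1 : ∑ i ∈ Finset.range (k + 1), rho (ZMod (k + 1)) (i : ZMod (k + 1)) * B ^ i ≤
        ∑ i ∈ Finset.range (k + 1), rho (ZMod (k + 1)) (i : ZMod (k + 1)) * B ^ k := by
      refine Finset.sum_le_sum fun i hi => Nat.mul_le_mul_left _ (Nat.pow_le_pow_right hB0 ?_)
      have := Finset.mem_range.1 hi
      omega
    rw [← Finset.sum_mul, sum_range_zmod (fun x => rho (ZMod (k + 1)) x), sum_rho, ZMod.card] at h1
    have h2 : ((k + 1) ^ 3 + 2) * B ^ k ≤ B ^ (k + 1) := by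
      rw [pow_succ B k, mul_comm (B ^ k) B]
      exact Nat.mul_le_mul_right _ hB
    have h3 : ((k + 1) ^ 3 + 2) * B ^ k = (k + 1) ^ 3 * B ^ k + 2 * B ^ k := by ring
    omega
  have hN : 0 < B ^ (k + 1) - 1 := lt_of_le_of_lt (Nat.zero_le _) hlt
  have hmod : PP B (k + 1) (k + 1) ^ 3 % (B ^ (k + 1) - 1) =
      ∑ i ∈ Finset.range (k + 1), rho (ZMod (k + 1)) (i : ZMod (k + 1)) * B ^ i := by
    have h1 : ((PP B (k + 1) (k + 1) ^ 3 : ℕ) : ZMod (B ^ (k + 1) - 1)) =
        ((∑ i ∈ Finset.range (k + 1), rho (ZMod (k + 1)) (i : ZMod (k + 1)) * B ^ i : ℕ) :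
          ZMod (B ^ (k + 1) - 1)) := by
      have hT : ((B : ℕ) : ZMod (B ^ (k + 1) - 1)) ^ (k + 1) = 1 := by
        have h2 : (B ^ (k + 1) - 1) + 1 = B ^ (k + 1) := by omega
        have h3 := congrArg (Nat.cast : ℕ → ZMod (B ^ (k + 1) - 1)) h2
        rw [Nat.cast_add, ZMod.natCast_self, zero_add, Nat.cast_one, Nat.cast_pow] at h3
        exact h3.symm
      rw [PP_eq]
      push_cast
      exact key hT
    rw [ZMod.natCast_eq_natCast_iff] at h1
    have h2 : PP B (k + 1) (k + 1) ^ 3 % (B ^ (k + 1) - 1) =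
      (∑ i ∈ Finset.range (k + 1), rho (ZMod (k + 1)) (i : ZMod (k + 1)) * B ^ i) % (B ^ (k + 1) - 1) := h1
    rw [h2, Nat.mod_eq_of_lt hlt]
  rw [hmod]
  refine digs_eq hB0 (k + 1) (fun i => rho (ZMod (k + 1)) (i : ZMod (k + 1))) fun i => ?_
  have := rho_le (m := k + 1) (i : ZMod (k + 1))
  omega

/-- the list with the given multiplicities -/
def expand : List (ℕ × ℕ) → List ℕ
  | [] => []
  | p :: d => List.replicate p.2 p.1 ++ expand d

theorem sum_expand (d : List (ℕ × ℕ)) (F : ℕ → ℕ) : ((expand d).map F).sum = (d.map fun p => p.2 * F p.1).sum := by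
  induction d with
  | nil => rfl
  | cons p d ih =>
    rw [expand, List.map_append, List.sum_append, ih, List.map_replicate, List.sum_replicate, smul_eq_mul,
      List.map_cons, List.sum_cons]

theorem isDist_of {B : ℕ} (hB : m ^ 3 + 2 ≤ B) {d : List (ℕ × ℕ)}
    (h : (digs B m (PP B m m ^ 3 % (B ^ m - 1))).Perm (expand d)) : IsDist (ZMod m) d := by
  intro F
  rw [digs_rho hB] at h
  have h1 := (h.map F).sum_eq
  rw [sum_expand, List.map_map] at h1
  rw [← h1, ← sum_range_zmod (fun x => F (rho (ZMod m) x)), Finset.sum_range, ← List.sum_ofFn]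
  congr 1
  apply List.ext_getElem
  · simp
  · intro i h1 h2
    simp

end

end Pool.Agent.Lib.MP_225355_nt
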