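import Mathlib

/-!
# Lattice points in the positive part of a ball of the `ℓ³` norm
-/

namespace Pool.Agent.Lib.MP_225355_nt

open MeasureTheory

/-- `Γ(4/3)³`, the volume of `{t ∈ [0,∞)³ : t₁³ + t₂³ + t₃³ ≤ 1}`. -/
noncomputable def V : ℝ := Real.Gamma (4 / 3) ^ 3

theorem V_pos : 0 < V := pow_pos (Real.Gamma_pos_of_pos (by norm_num)) 3

/-- the numbers `s` with `a < |s| < a + 1` -/
def c1 (a : ℕ) : Set ℝ := Set.Ioo (a : ℝ) (a + 1) ∪ Set.Ioo (-((a : ℝ) + 1)) (-(a : ℝ))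

theorem meas_c1 (a : ℕ) : MeasurableSet (c1 a) := measurableSet_Ioo.union measurableSet_Ioo

theorem vol_c1 (a : ℕ) : volume (c1 a) = 2 := by
  have h0 : (0 : ℝ) ≤ a := Nat.cast_nonneg a
  unfold c1
  rw [measure_union _ measurableSet_Ioo, Real.volume_Ioo, Real.volume_Ioo]
  · rw [show ((a : ℝ) + 1 - a) = 1 by ring, show (-(a : ℝ) - -((a : ℝ) + 1)) = 1 by ring]
    rw [ENNReal.ofReal_one]
    norm_num
  · rw [Set.disjoint_left]
    rintro s ⟨h1, -⟩ ⟨-, h4⟩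
    linarith

theorem mem_c1 {a : ℕ} {s : ℝ} (h : s ∈ c1 a) : (a : ℝ) < |s| ∧ |s| < a + 1 := by
  have h0 : (0 : ℝ) ≤ a := Nat.cast_nonneg a
  rcases h with h | h
  · rw [abs_of_pos (lt_of_le_of_lt h0 h.1)]
    exact h
  · rw [abs_of_neg (by linarith [h.2])]
    exact ⟨by linarith [h.2], by linarith [h.1]⟩

theorem c1_inj {a b : ℕ} {s : ℝ} (ha : s ∈ c1 a) (hb : s ∈ c1 b) : a = b := by
  obtain ⟨h1, h2⟩ := mem_c1 ha
  obtain ⟨h3, h4⟩ := mem_c1 hb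
  have h5 : (a : ℝ) < b + 1 := lt_trans h1 h4
  have h6 : (b : ℝ) < a + 1 := lt_trans h3 h2
  have h5' : a < b + 1 := by exact_mod_cast h5
  have h6' : b < a + 1 := by exact_mod_cast h6
  omega

/-- the eight unit cubes with the lattice point `p` up to signs -/
def cell (p : Fin 3 → ℕ) : Set (Fin 3 → ℝ) := Set.pi Set.univ fun i => c1 (p i)

theorem meas_cell (p : Fin 3 → ℕ) : MeasurableSet (cell p) :=
  MeasurableSet.univ_pi fun i => meas_c1 (p i)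

theorem vol_cell (p : Fin 3 → ℕ) : volume (cell p) = 8 := by
  unfold cell
  rw [volume_pi_pi]
  simp only [vol_c1, Finset.prod_const, Finset.card_univ, Fintype.card_fin]
  norm_num

theorem ball_vol (r : ℝ) (hr : 0 ≤ r) :
    volume {x : Fin 3 → ℝ | (∑ i, |x i| ^ (3 : ℝ)) ^ (1 / (3 : ℝ)) ≤ r} = ENNReal.ofReal (8 * V * r ^ 3) := by
  rw [MeasureTheory.volume_sum_rpow_le (Fin 3) (by norm_num : (1 : ℝ) ≤ 3)]
  rw [← ENNReal.ofReal_pow hr, ← ENNReal.ofReal_mul (by positivity)]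
  congr 1
  simp only [Fintype.card_fin]
  rw [show ((3 : ℕ) : ℝ) / 3 + 1 = 2 by norm_num, Real.Gamma_two, show (1 : ℝ) / 3 + 1 = 4 / 3 by norm_num]
  unfold V
  ring

/-- The number of lattice points. -/
theorem card_le {y : ℝ} (hy : 0 ≤ y) (T : Finset (Fin 3 → ℕ)) (hT : ∀ p ∈ T, ∑ i, (p i : ℝ) ^ 3 ≤ y) :
    (T.card : ℝ) ≤ V * (y ^ (1 / (3 : ℝ)) + 3 ^ (1 / (3 : ℝ))) ^ 3 := by
  set r : ℝ := y ^ (1 / (3 : ℝ)) + 3 ^ (1 / (3 : ℝ)) with hr
  have hr0 : 0 ≤ r := by positivity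
  have hsub : (⋃ p ∈ T, cell p) ⊆ {x : Fin 3 → ℝ | (∑ i, |x i| ^ (3 : ℝ)) ^ (1 / (3 : ℝ)) ≤ r} := by
    intro t ht
    simp only [Set.mem_iUnion] at ht
    obtain ⟨p, hp, ht⟩ := ht
    have h1 : ∀ i, |t i| ≤ (p i : ℝ) + 1 := fun i => (mem_c1 (ht i (Set.mem_univ i))).2.le
    have h2 : ∑ i, |t i| ^ (3 : ℝ) ≤ ∑ i, ((p i : ℝ) + 1) ^ (3 : ℝ) :=
      Finset.sum_le_sum fun i _ => Real.rpow_le_rpow (abs_nonneg _) (h1 i) (by norm_num)
    have h3 := Real.Lp_add_le_of_nonneg (s := (Finset.univ : Finset (Fin 3))) (f := fun i => (p i : ℝ))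
      (g := fun _ => (1 : ℝ)) (p := 3) (by norm_num) (fun i _ => Nat.cast_nonneg _) (fun _ _ => zero_le_one)
    have h4 : ∑ i, (p i : ℝ) ^ (3 : ℝ) ≤ y := by
      refine le_trans (le_of_eq ?_) (hT p hp)
      refine Finset.sum_congr rfl fun i _ => ?_
      exact_mod_cast Real.rpow_natCast (p i : ℝ) 3
    have h5 : ∑ _i : Fin 3, (1 : ℝ) ^ (3 : ℝ) = 3 := by
      simp
    show (∑ i, |t i| ^ (3 : ℝ)) ^ (1 / (3 : ℝ)) ≤ r
    calc (∑ i, |t i| ^ (3 : ℝ)) ^ (1 / (3 : ℝ)) ≤ (∑ i, ((p i : ℝ) + 1) ^ (3 : ℝ)) ^ (1 / (3 : ℝ)) :=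
          Real.rpow_le_rpow (Finset.sum_nonneg fun i _ => by positivity) h2 (by norm_num)
      _ ≤ (∑ i, (p i : ℝ) ^ (3 : ℝ)) ^ (1 / (3 : ℝ)) + (∑ _i : Fin 3, (1 : ℝ) ^ (3 : ℝ)) ^ (1 / (3 : ℝ)) := h3
      _ ≤ r := by
          rw [h5, hr]
          exact add_le_add_left (Real.rpow_le_rpow (Finset.sum_nonneg fun i _ => by positivity) h4 (by norm_num)) _
  have hdisj : Set.PairwiseDisjoint (T : Set (Fin 3 → ℕ)) cell := by
    intro p _ p' _ hpp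
    rw [Function.onFun, Set.disjoint_left]
    intro t h1 h2
    exact hpp (funext fun i => c1_inj (h1 i (Set.mem_univ i)) (h2 i (Set.mem_univ i)))
  have hm := measure_biUnion_finset (μ := (volume : Measure (Fin 3 → ℝ))) hdisj (fun p _ => meas_cell p)
  have hle : volume (⋃ p ∈ T, cell p) ≤ ENNReal.ofReal (8 * V * r ^ 3) := by
    rw [← ball_vol r hr0]
    exact measure_mono hsub
  rw [hm] at hle
  simp only [vol_cell, Finset.sum_const, nsmul_eq_mul] at hle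
  have hV := V_pos
  have h8 : ((T.card : ENNReal) * 8) = ENNReal.ofReal ((T.card : ℝ) * 8) := by
    rw [ENNReal.ofReal_mul (Nat.cast_nonneg _), ENNReal.ofReal_natCast]
    norm_num
  rw [h8, ENNReal.ofReal_le_ofReal_iff (by positivity)] at hle
  linarith

end Pool.Agent.Lib.MP_225355_nt
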